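import Pool.Agent.Y34.HB.Stm

/-!
# The dimension of flats is bounded
-/

set_option autoImplicit false

universe u v

open Metric Set Filter Topology
open Pool.Agent.TH60.FP Pool.Agent.Y34.HB

namespace Pool.Agent.Y210.HB

theorem t_dim : S_DIM.{u, v} := by
  intro X _ G _ _ hG
  obtain ⟨K, hK, hcov⟩ := hG.cc
  haveI := hG.proper
  haveI := hG.isom
  rcases K.eq_empty_or_nonempty with hne | ⟨x0, hx0⟩
  · refine ⟨0, fun k f hf => ?_⟩
    obtain ⟨g, hg⟩ := hcov (f 0)
    rw [hne] at hg
    exact absurd hg (Set.notMem_empty _)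
  obtain ⟨D, hD⟩ := hK.isBounded.subset_closedBall x0
  have hc : IsCompact (closedBall x0 (D + 1)) := isCompact_closedBall _ _
  obtain ⟨t, -, htf, hcover⟩ := hc.finite_cover_balls (e := 1 / 2) (by norm_num)
  refine ⟨htf.toFinset.card, fun k f hf => ?_⟩
  obtain ⟨g, hg⟩ := hcov (f 0)
  have h1 : ∀ i : Fin k, g • f (EuclideanSpace.single i 1) ∈ closedBall x0 (D + 1) := by
    intro i
    have h2 : dist (g • f 0) x0 ≤ D := hD hg
    have h3 : dist (g • f (EuclideanSpace.single i 1)) (g • f 0) = 1 := by
      rw [dist_smul, hf.dist_eq, dist_zero_right, EuclideanSpace.norm_single]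
      simp
    rw [mem_closedBall]
    linarith [dist_triangle (g • f (EuclideanSpace.single i 1)) (g • f 0) x0]
  have h2 : ∀ i : Fin k, ∃ y ∈ t, g • f (EuclideanSpace.single i 1) ∈ ball y (1 / 2) := by
    intro i
    simpa using hcover (h1 i)
  choose c hct hcb using h2
  have hinj : Function.Injective c := by
    intro i j hij
    by_contra hne
    have h3 : dist (g • f (EuclideanSpace.single i 1)) (g • f (EuclideanSpace.single j 1)) < 1 := by
      have h4 := hcb i
      have h5 := hcb j
      rw [← hij] at h5
      rw [mem_ball] at h4 h5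
      have h6 := dist_triangle_right (g • f (EuclideanSpace.single i 1))
        (g • f (EuclideanSpace.single j 1)) (c i)
      linarith
    rw [dist_smul, hf.dist_eq] at h3
    have h4 : dist (EuclideanSpace.single i (1 : ℝ)) (EuclideanSpace.single j (1 : ℝ)) = √2 := by
      have h6 : dist (EuclideanSpace.single i (1 : ℝ)) (EuclideanSpace.single j (1 : ℝ)) ^ 2 = 2 := by
        rw [dist_eq_norm, @norm_sub_sq_real, EuclideanSpace.norm_single, EuclideanSpace.norm_single,
          EuclideanSpace.inner_single_left]
        simp [hne, Ne.symm hne]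
        norm_num
      rw [← h6, Real.sqrt_sq dist_nonneg]
    have h5 : (1 : ℝ) < √2 := by
      rw [Real.lt_sqrt (by norm_num)]
      norm_num
    linarith
  have h3 := Finset.card_le_card_of_injOn (s := (Finset.univ : Finset (Fin k)))
    (t := htf.toFinset) c (fun i _ => by simpa using hct i) (hinj.injOn)
  simpa using h3

end Pool.Agent.Y210.HB
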